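import Pool.Agent.Helper68_BAN.Stmt2

set_option autoImplicit false

/-!
# BAN module GAUF (helper9): gauges of the translates `B - b`
-/

namespace Pool.Agent.BAN.H9

open MeasureTheory Filter Topology Set
open scoped NNReal

variable {X : Type} [NormedAddCommGroup X] [InnerProductSpace ℝ X]

theorem gau_of {B : Set X} (hc : Convex ℝ B) (hb : Bornology.IsBounded B) (h0 : B ∈ 𝓝 (0 : X)) :
    Gau (gauge B) where
  sub := fun x y => gauge_add_le hc (absorbent_nhds_zero h0) x y
  hom := fun t x ht => by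
    have := gauge_smul_of_nonneg (s := B) ht x
    simpa [smul_eq_mul] using this
  pos := fun x hx => by
    rw [gauge_pos (absorbent_nhds_zero h0)]
    · exact hx
    · exact (NormedSpace.isVonNBounded_iff ℝ).2 hb

theorem gaufAux : GAUFStmt := by
  intro X _ _ _ B hc hK h0
  have hB0 : B ∈ 𝓝 (0 : X) := mem_interior_iff_mem_nhds.1 h0
  have hcl : IsClosed B := hK.isClosed
  have hle : ∀ x, gauge B x ≤ 1 ↔ x ∈ B := by
    intro x
    rw [gauge_le_one_iff_mem_closure hc hB0, hcl.closure_eq]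
  have hG := gau_of hc hK.isBounded hB0
  refine ⟨hG, hle, ?_⟩
  intro β hβ
  obtain ⟨r, hr, hrB⟩ := Metric.mem_nhds_iff.1 hB0
  set ρ : ℝ := (1 - β) * r with hρ
  have hρ0 : 0 < ρ := mul_pos (by linarith) hr
  have hgr : ∀ x, gauge B x ≤ ‖x‖ / r := by
    intro x
    rw [le_div_iff₀ hr, mul_comm]
    exact mul_gauge_le_norm hrB
  -- the translates
  have hmem : ∀ b y, y ∈ ((fun x => x - b) '' B) ↔ b + y ∈ B := by
    intro b y
    constructor
    · rintro ⟨x, hx, rfl⟩
      simpa using hx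
    · intro h
      exact ⟨b + y, h, by simp⟩
  have hball : ∀ b, gauge B b ≤ β → Metric.ball (0 : X) ρ ⊆ ((fun x => x - b) '' B) := by
    intro b hb y hy
    rw [hmem, ← hle]
    have h1 := hG.sub b y
    have h2 := hgr y
    have h3 : ‖y‖ < ρ := by simpa using hy
    have h4 : ‖y‖ / r ≤ 1 - β := by
      rw [div_le_iff₀ hr]; exact h3.le
    linarith
  have hcT : ∀ b, Convex ℝ ((fun x => x - b) '' B) := by
    intro b
    have := hc.translate (-b)
    have h2 : (fun x => x - b) '' B = (fun z => -b + z) '' B := by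
      congr 1
      funext x
      abel
    rw [h2]; exact this
  have hKT : ∀ b, IsCompact ((fun x => x - b) '' B) := by
    intro b
    exact hK.image (by fun_prop)
  have hnT : ∀ b, gauge B b ≤ β → ((fun x => x - b) '' B) ∈ 𝓝 (0 : X) := by
    intro b hb
    exact Filter.mem_of_superset (Metric.ball_mem_nhds _ hρ0) (hball b hb)
  have hGT : ∀ b, gauge B b ≤ β → Gau (gauge ((fun x => x - b) '' B)) := by
    intro b hb
    exact gau_of (hcT b) (hKT b).isBounded (hnT b hb)
  have hleT : ∀ b, gauge B b ≤ β → ∀ y, gauge ((fun x => x - b) '' B) y ≤ 1 ↔ b + y ∈ B := by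
    intro b hb y
    rw [gauge_le_one_iff_mem_closure (hcT b) (hnT b hb), (hKT b).isClosed.closure_eq, hmem]
  have hgT : ∀ b, gauge B b ≤ β → ∀ x, gauge ((fun x => x - b) '' B) x ≤ ‖x‖ / ρ := by
    intro b hb x
    rw [le_div_iff₀ hρ0, mul_comm]
    exact mul_gauge_le_norm (hball b hb)
  have hone : ∀ b b', gauge B b ≤ β → gauge B b' ≤ β → ∀ x,
      gauge ((fun x => x - b') '' B) x ≤ gauge ((fun x => x - b) '' B) x
        + 1 / ρ ^ 2 * ‖b - b'‖ * ‖x‖ := by
    intro b b' hb hb' x
    by_cases hx : x = 0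
    · subst hx
      simp
    set t := gauge ((fun x => x - b) '' B) x with ht
    have htpos : 0 < t := (hGT b hb).pos x hx
    have h1 : gauge ((fun x => x - b) '' B) (t⁻¹ • x) ≤ 1 := by
      rw [(hGT b hb).hom t⁻¹ x (inv_nonneg.2 htpos.le), ← ht, inv_mul_cancel₀ htpos.ne']
    have h2 : b + t⁻¹ • x ∈ B := (hleT b hb _).1 h1
    have h3 : gauge ((fun x => x - b') '' B) (t⁻¹ • x + (b - b')) ≤ 1 := by
      rw [hleT b' hb']
      have : b' + (t⁻¹ • x + (b - b')) = b + t⁻¹ • x := by abel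
      rw [this]; exact h2
    have h4 : gauge ((fun x => x - b') '' B) (t⁻¹ • x) ≤ 1 + ‖b - b'‖ / ρ := by
      have h5 := (hGT b' hb').sub (t⁻¹ • x + (b - b')) (b' - b)
      have h6 : t⁻¹ • x + (b - b') + (b' - b) = t⁻¹ • x := by abel
      rw [h6] at h5
      have h7 := hgT b' hb' (b' - b)
      rw [norm_sub_rev] at h7
      linarith
    have h8 : gauge ((fun x => x - b') '' B) x = t * gauge ((fun x => x - b') '' B) (t⁻¹ • x) := by
      rw [(hGT b' hb').hom t⁻¹ x (inv_nonneg.2 htpos.le), ← mul_assoc, mul_inv_cancel₀ htpos.ne',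
        one_mul]
    have h9 : t ≤ ‖x‖ / ρ := hgT b hb x
    calc gauge ((fun x => x - b') '' B) x
        = t * gauge ((fun x => x - b') '' B) (t⁻¹ • x) := h8
      _ ≤ t * (1 + ‖b - b'‖ / ρ) := mul_le_mul_of_nonneg_left h4 htpos.le
      _ = t + t * (‖b - b'‖ / ρ) := by ring
      _ ≤ t + ‖x‖ / ρ * (‖b - b'‖ / ρ) := by
          have : 0 ≤ ‖b - b'‖ / ρ := by positivity
          have := mul_le_mul_of_nonneg_right h9 this
          linarith
      _ = t + 1 / ρ ^ 2 * ‖b - b'‖ * ‖x‖ := by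
          field_simp
  refine ⟨1 / ρ ^ 2, by positivity, ?_, ?_⟩
  · intro b hb
    refine ⟨hGT b hb, ?_⟩
    intro y
    rw [hleT b hb, hle]
  · intro b b' hb hb' x
    have h1 := hone b b' hb hb' x
    have h2 := hone b' b hb' hb x
    rw [norm_sub_rev b' b] at h2
    rw [abs_le]
    constructor <;> linarith

/-- GAUF. -/
theorem gauf : GAUFStmt := gaufAux

end Pool.Agent.BAN.H9
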