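import Pool.Agent.Helper10_BAN.Stmt

/-!
# QG: quadratic growth of the distance to a closed group of isometries
-/

set_option autoImplicit false

namespace Pool.Agent.BAN.H9

section HS

variable {𝕜 : Type} [RCLike 𝕜] {V : Type} [NormedAddCommGroup V] [InnerProductSpace 𝕜 V]
  [FiniteDimensional 𝕜 V]

/-- the tuple of values on the standard basis -/
noncomputable def J (A : V →L[𝕜] V) : PiLp 2 (fun _ : Fin (Module.finrank 𝕜 V) => V) :=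
  WithLp.toLp 2 (fun i => A (stdOrthonormalBasis 𝕜 V i))

theorem hs_eq (A B : V →L[𝕜] V) : hs A B = RCLike.re (inner 𝕜 (J A) (J B)) := by
  rw [PiLp.inner_apply, map_sum]
  rfl

theorem J_add (A B : V →L[𝕜] V) : J (A + B) = J A + J B := by
  ext i; simp [J]

theorem J_sub (A B : V →L[𝕜] V) : J (A - B) = J A - J B := by
  ext i; simp [J]

theorem J_neg (A : V →L[𝕜] V) : J (-A) = -J A := by
  ext i; simp [J]

theorem hs_add_right (A B C : V →L[𝕜] V) : hs A (B + C) = hs A B + hs A C := by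
  simp only [hs_eq, J_add, inner_add_right, map_add]

theorem hs_sub_right (A B C : V →L[𝕜] V) : hs A (B - C) = hs A B - hs A C := by
  simp only [hs_eq, J_sub, inner_sub_right, map_sub]

theorem hs_add_left (A B C : V →L[𝕜] V) : hs (A + B) C = hs A C + hs B C := by
  simp only [hs_eq, J_add, inner_add_left, map_add]

theorem hs_sub_left (A B C : V →L[𝕜] V) : hs (A - B) C = hs A C - hs B C := by
  simp only [hs_eq, J_sub, inner_sub_left, map_sub]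

theorem hs_comm (A B : V →L[𝕜] V) : hs A B = hs B A := by
  rw [hs_eq, hs_eq, inner_re_symm]

theorem hs_self (A : V →L[𝕜] V) : hs A A = ‖J A‖ ^ 2 := by
  rw [hs_eq]
  exact inner_self_eq_norm_sq (𝕜 := 𝕜) (J A)

theorem abs_hs_le (A B : V →L[𝕜] V) : |hs A B| ≤ ‖J A‖ * ‖J B‖ := by
  rw [hs_eq]
  exact (RCLike.abs_re_le_norm _).trans (norm_inner_le_norm _ _)

theorem J_sq (A : V →L[𝕜] V) :
    ‖J A‖ ^ 2 = ∑ i, ‖A (stdOrthonormalBasis 𝕜 V i)‖ ^ 2 := by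
  rw [PiLp.norm_sq_eq_of_L2]
  rfl

theorem op_le (A : V →L[𝕜] V) : ‖A‖ ≤ ‖J A‖ := by
  refine ContinuousLinearMap.opNorm_le_bound _ (norm_nonneg _) fun v => ?_
  have h1 : A v = ∑ i, inner 𝕜 (stdOrthonormalBasis 𝕜 V i) v • A (stdOrthonormalBasis 𝕜 V i) := by
    conv_lhs => rw [← (stdOrthonormalBasis 𝕜 V).sum_repr' v]
    rw [map_sum]
    simp
  have h2 : ‖v‖ ^ 2 = ∑ i, ‖inner 𝕜 (stdOrthonormalBasis 𝕜 V i) v‖ ^ 2 :=
    ((stdOrthonormalBasis 𝕜 V).sum_sq_norm_inner_right v).symm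
  have h3 : ‖A v‖ ≤ ∑ i, ‖inner 𝕜 (stdOrthonormalBasis 𝕜 V i) v‖ *
      ‖A (stdOrthonormalBasis 𝕜 V i)‖ := by
    rw [h1]
    refine (norm_sum_le _ _).trans (Finset.sum_le_sum fun i _ => ?_)
    rw [norm_smul]
  have h4 := Finset.sum_mul_sq_le_sq_mul_sq Finset.univ
    (fun i => ‖inner 𝕜 (stdOrthonormalBasis 𝕜 V i) v‖)
    (fun i => ‖A (stdOrthonormalBasis 𝕜 V i)‖)
  rw [← h2, ← J_sq] at h4
  have h5 : ‖A v‖ ^ 2 ≤ (‖J A‖ * ‖v‖) ^ 2 := by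
    calc ‖A v‖ ^ 2 ≤ _ := pow_le_pow_left₀ (norm_nonneg _) h3 2
      _ ≤ _ := h4
      _ = _ := by ring
  exact (pow_le_pow_iff_left₀ (norm_nonneg _) (by positivity) two_ne_zero).1 h5

theorem J_le (A : V →L[𝕜] V) : ‖J A‖ ≤ Real.sqrt (Module.finrank 𝕜 V) * ‖A‖ := by
  have h : ‖J A‖ ^ 2 ≤ (Real.sqrt (Module.finrank 𝕜 V) * ‖A‖) ^ 2 := by
    rw [J_sq, mul_pow, Real.sq_sqrt (Nat.cast_nonneg _)]
    calc ∑ i, ‖A (stdOrthonormalBasis 𝕜 V i)‖ ^ 2 ≤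
        ∑ _i : Fin (Module.finrank 𝕜 V), ‖A‖ ^ 2 := by
          refine Finset.sum_le_sum fun i _ => pow_le_pow_left₀ (norm_nonneg _) ?_ 2
          have := A.le_opNorm (stdOrthonormalBasis 𝕜 V i)
          rwa [(stdOrthonormalBasis 𝕜 V).norm_eq_one, mul_one] at this
      _ = Module.finrank 𝕜 V * ‖A‖ ^ 2 := by simp
  exact (pow_le_pow_iff_left₀ (norm_nonneg _) (by positivity) two_ne_zero).1 h

theorem J_mul_le (A B : V →L[𝕜] V) : ‖J (A * B)‖ ≤ ‖A‖ * ‖J B‖ := by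
  have h : ‖J (A * B)‖ ^ 2 ≤ (‖A‖ * ‖J B‖) ^ 2 := by
    rw [J_sq, mul_pow, J_sq, Finset.mul_sum]
    refine Finset.sum_le_sum fun i _ => ?_
    rw [← mul_pow]
    exact pow_le_pow_left₀ (norm_nonneg _) (A.le_opNorm _) 2
  exact (pow_le_pow_iff_left₀ (norm_nonneg _) (by positivity) two_ne_zero).1 h

theorem hs_iso (κ : V →L[𝕜] V) (h : ∀ v, ‖κ v‖ = ‖v‖) :
    hs κ κ = Module.finrank 𝕜 V := by
  rw [hs_self, J_sq]
  simp [h, (stdOrthonormalBasis 𝕜 V).norm_eq_one]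

theorem hs_one_sub (κ : V →L[𝕜] V) (h : ∀ v, ‖κ v‖ = ‖v‖) :
    hs 1 (1 - κ) = ‖J (1 - κ)‖ ^ 2 / 2 := by
  have h1 : hs (1 : V →L[𝕜] V) 1 = Module.finrank 𝕜 V := hs_iso _ fun v => rfl
  have h2 := hs_iso κ h
  rw [← hs_self, hs_sub_right, hs_sub_left, hs_sub_right, hs_sub_right, h1, h2, hs_comm κ 1]
  ring

end HS

theorem qg (hsqrt : SQRTStmt) : QGStmt := by
  intro 𝕜 _ V _ _ _ K hK
  obtain ⟨r₀, hr₀, hroot⟩ := hsqrt 𝕜 V K hK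
  set s := Real.sqrt (Module.finrank 𝕜 V) with hs_def
  have hs0 : 0 ≤ s := Real.sqrt_nonneg _
  set q := min r₀ (1 / 8) with hq
  have hq0 : 0 < q := lt_min hr₀ (by norm_num)
  have hq1 : q ≤ 1 / 8 := min_le_right _ _
  have hq2 : q ≤ r₀ := min_le_left _ _
  refine ⟨q / (4 * (s + 1)), 1 / 18, by positivity, by norm_num, fun C hC hmax κ hκ => ?_⟩
  have hiso := hK.iso κ hκ
  have hJC : ‖J (C - 1)‖ ≤ q / 4 := by
    calc ‖J (C - 1)‖ ≤ s * ‖C - 1‖ := J_le _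
      _ ≤ s * (q / (4 * (s + 1))) := mul_le_mul_of_nonneg_left hC hs0
      _ ≤ q / 4 := by
        rw [← mul_div_assoc, div_le_div_iff₀ (by positivity) (by norm_num)]
        nlinarith
  have hop : ‖1 - κ‖ ≤ ‖J (1 - κ)‖ := op_le _
  have hop2 : ‖1 - κ‖ ^ 2 ≤ ‖J (1 - κ)‖ ^ 2 := pow_le_pow_left₀ (norm_nonneg _) hop 2
  have hsplit : ∀ B : V →L[𝕜] V, hs C B = hs 1 B + hs (C - 1) B := by
    intro B
    rw [← hs_add_left]
    congr 1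
    abel
  by_cases hcase : q ≤ ‖1 - κ‖
  · have h1 := hs_one_sub κ hiso
    have h2 := abs_le.1 (abs_hs_le (C - 1) (1 - κ))
    have h3 : ‖J (C - 1)‖ * ‖J (1 - κ)‖ ≤ ‖J (1 - κ)‖ ^ 2 / 4 := by
      have h4 : ‖J (C - 1)‖ ≤ ‖J (1 - κ)‖ / 4 := by linarith
      nlinarith [norm_nonneg (J (1 - κ))]
    rw [hsplit, h1]
    linarith [h2.1, sq_nonneg ‖1 - κ‖]
  · push Not at hcase
    have hk1 : ‖κ - 1‖ ≤ r₀ := by
      rw [norm_sub_rev]; linarith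
    obtain ⟨l, hl, hll, hl1⟩ := hroot κ hκ hk1
    have hlz : ‖l - 1‖ ≤ 1 / 8 := by
      rw [norm_sub_rev κ 1] at hl1
      linarith
    set Z := l - 1 with hZ
    have hlZ : l = 1 + Z := by rw [hZ]; abel
    have hκZ : 1 - κ = -(Z + Z) - Z * Z := by
      rw [← hll, hlZ]
      noncomm_ring
    have hNZ2 : ‖J (Z * Z)‖ ≤ ‖Z‖ * ‖J Z‖ := J_mul_le _ _
    have hopZ : ‖Z‖ ≤ ‖J Z‖ := op_le _
    have hJZ0 := norm_nonneg (J Z)
    have hZ0 := norm_nonneg Z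
    have hJκ : J (1 - κ) = -(J Z + J Z) - J (Z * Z) := by
      rw [hκZ, J_sub, J_neg, J_add]
    have hup : ‖J (1 - κ)‖ ≤ 3 * ‖J Z‖ := by
      rw [hJκ]
      calc ‖-(J Z + J Z) - J (Z * Z)‖ ≤ ‖-(J Z + J Z)‖ + ‖J (Z * Z)‖ := norm_sub_le _ _
        _ ≤ (‖J Z‖ + ‖J Z‖) + ‖Z‖ * ‖J Z‖ := by
          rw [norm_neg]
          exact add_le_add (norm_add_le _ _) hNZ2
        _ ≤ 3 * ‖J Z‖ := by nlinarith
    have hlow : (2 - ‖Z‖) * ‖J Z‖ ≤ ‖J (1 - κ)‖ := by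
      rw [hJκ]
      have h1 : ‖-(J Z + J Z)‖ = 2 * ‖J Z‖ := by
        rw [norm_neg, ← two_smul 𝕜 (J Z), norm_smul, RCLike.norm_two]
      have h2 := norm_sub_norm_le (-(J Z + J Z)) (J (Z * Z))
      rw [h1] at h2
      linarith
    have h1Z : hs 1 (Z * Z) = ‖J Z‖ ^ 2 - ‖J (1 - κ)‖ ^ 2 / 2 := by
      have e1 : Z * Z = (1 - l) + (1 - l) - (1 - κ) := by
        rw [← hll, hZ]; noncomm_ring
      have e2 : J (1 - l) = -J Z := by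
        rw [← J_neg]; congr 1; rw [hZ]; abel
      have h2 := hs_one_sub l (hK.iso l hl)
      have h3 := hs_one_sub κ hiso
      rw [e1, hs_sub_right, hs_add_right, h2, h3, e2, norm_neg]
      ring
    have hge : 0 ≤ hs C (1 - l) := by
      rw [hs_sub_right]
      linarith [hmax l hl]
    have hC1 : hs C (1 - κ) = 2 * hs C (1 - l) - hs C (Z * Z) := by
      have e1 : 1 - κ = (1 - l) + (1 - l) - Z * Z := by
        rw [← hll, hZ]; noncomm_ring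
      rw [e1, hs_sub_right, hs_add_right]
      ring
    have hbd := abs_le.1 (abs_hs_le (C - 1) (Z * Z))
    have hbd2 : ‖J (C - 1)‖ * ‖J (Z * Z)‖ ≤ (1 / 32) * ‖J Z‖ ^ 2 := by
      have a1 : ‖J (Z * Z)‖ ≤ ‖J Z‖ ^ 2 := by nlinarith
      have a2 : ‖J (C - 1)‖ ≤ 1 / 32 := by linarith
      calc ‖J (C - 1)‖ * ‖J (Z * Z)‖ ≤ (1 / 32) * ‖J (Z * Z)‖ :=
            mul_le_mul_of_nonneg_right a2 (norm_nonneg _)
        _ ≤ (1 / 32) * ‖J Z‖ ^ 2 := mul_le_mul_of_nonneg_left a1 (by norm_num)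
    have hsq : (2 - 2 * ‖Z‖) * ‖J Z‖ ^ 2 ≤ ‖J (1 - κ)‖ ^ 2 / 2 := by
      have a1 : ((2 - ‖Z‖) * ‖J Z‖) ^ 2 ≤ ‖J (1 - κ)‖ ^ 2 :=
        pow_le_pow_left₀ (mul_nonneg (by linarith) hJZ0) hlow 2
      nlinarith [sq_nonneg (‖Z‖ * ‖J Z‖)]
    have hup2 : ‖J (1 - κ)‖ ^ 2 ≤ 9 * ‖J Z‖ ^ 2 := by
      have := pow_le_pow_left₀ (norm_nonneg _) hup 2
      nlinarith
    have hfin : (1 / 2) * ‖J Z‖ ^ 2 ≤ hs C (1 - κ) := by
      rw [hC1, hsplit (Z * Z), h1Z]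
      have a3 : (3 / 4) * ‖J Z‖ ^ 2 ≤ (1 - 2 * ‖Z‖) * ‖J Z‖ ^ 2 :=
        mul_le_mul_of_nonneg_right (by linarith) (sq_nonneg _)
      nlinarith [sq_nonneg ‖J Z‖, hbd.2]
    linarith

end Pool.Agent.BAN.H9
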